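import Mathlib

set_option autoImplicit false

namespace Pool.Agent.Results.MP_84eedd_co.Inter

open Polynomial

/-- `π` arises from a set partition (the classes of `r`): inside a block the entries appear in
increasing order, and different blocks appear in the order of their smallest elements. -/
def RunSorted {n : ℕ} (π : Equiv.Perm (Fin n)) : Prop :=
  ∃ r : Setoid (Fin n), ∀ i j : Fin n, i < j →
    (r (π i) (π j) ∧ π i < π j) ∨
    (¬ r (π i) (π j) ∧ ∃ a, r a (π i) ∧ ∀ b, r b (π j) → a < b)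

/-- Descent positions (0-based index `i` stands for the position `i + 1`). -/
def Des {n : ℕ} (π : Equiv.Perm (Fin n)) : Finset (Fin n) :=
  Finset.univ.filter fun i => ∃ j : Fin n, j.val = i.val + 1 ∧ π j < π i

open Classical in
/-- `Q_n(lam_1 t, ..., lam_n t)`. -/
noncomputable def Q (n : ℕ) (lam : ℕ → ℝ) : ℝ[X] :=
  ∑ π ∈ Finset.univ.filter (fun π : Equiv.Perm (Fin n) => RunSorted π),
    ∏ i ∈ Des π, (C (lam (i.val + 1)) * X)

/-- All roots are real and non-positive. -/
def RealNonpos (f : ℝ[X]) : Prop :=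
  f ≠ 0 ∧ f.roots.card = f.natDegree ∧ ∀ x ∈ f.roots, x ≤ 0

/-- Roots with multiplicity in weakly decreasing order. -/
noncomputable def rts (f : ℝ[X]) : List ℝ := f.roots.sort (· ≥ ·)

/-- The chain `... ≤ f_2 ≤ g_2 ≤ f_1 ≤ g_1`, as far as the roots exist. -/
def Interlaces (f g : ℝ[X]) : Prop :=
  (∀ (i : ℕ) (h : i < (rts f).length) (h' : i < (rts g).length), (rts f)[i] ≤ (rts g)[i]) ∧
  (∀ (i : ℕ) (h : i < (rts f).length) (h' : i + 1 < (rts g).length), (rts g)[i + 1] ≤ (rts f)[i])

def crit {n : ℕ} (π : Equiv.Perm (Fin n)) : Prop :=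
  (∀ i j : Fin n, i.val = 0 → π i ≤ π j) ∧
  ∀ i j k : Fin n, j.val = i.val + 1 → π j < π i → j < k → π j < π k

instance {n : ℕ} (π : Equiv.Perm (Fin n)) : Decidable (crit π) := by
  unfold crit; infer_instance

theorem crit_of {n : ℕ} (π : Equiv.Perm (Fin n)) (h : RunSorted π) : crit π := by
  obtain ⟨r, hr⟩ := h
  have key : ∀ j : Fin n, (∀ l : Fin n, l < j → ¬ r (π l) (π j)) → ∀ k, j < k → π j < π k := by
    intro j hj k hjk
    rcases hr j k hjk with h | ⟨_, a, ha, hb⟩
    · exact h.2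
    · have h1 : a < π k := hb _ (r.refl _)
      obtain ⟨l, rfl⟩ := π.surjective a
      rcases lt_trichotomy l j with h2 | h2 | h2
      · exact absurd ha (hj l h2)
      · rw [← h2]; exact h1
      · rcases hr j l h2 with h3 | h3
        · exact h3.2.trans h1
        · exact absurd (r.symm ha) h3.1
  refine ⟨fun i j hi => ?_, fun i j k hij hlt hjk => ?_⟩
  · rcases eq_or_ne i j with h | h
    · rw [h]
    · refine (key i (fun l hl => ?_) j ?_).le
      · exact absurd (Fin.lt_def.1 hl) (by omega)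
      · have : i.val ≠ j.val := fun e => h (Fin.ext e)
        exact Fin.lt_def.2 (by omega)
  · have hij' : i < j := Fin.lt_def.2 (by omega)
    refine key j (fun l hl hr' => ?_) k hjk
    rcases hr i j hij' with h | ⟨hn, a, ha, hb⟩
    · exact absurd h.2 (not_lt.2 hlt.le)
    · have hli : l < i := by
        have h1 : l ≠ i := fun e => hn (e ▸ hr')
        have h2 : l.val ≠ i.val := fun e => h1 (Fin.ext e)
        have := Fin.lt_def.1 hl
        exact Fin.lt_def.2 (by omega)
      rcases hr l i hli with h | ⟨_, a', ha', hb'⟩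
      · exact hn (r.trans (r.symm h.1) hr')
      · exact absurd (hb' a ha) (not_lt.2 (hb a' (r.trans ha' hr')).le)

def rho {n : ℕ} (π : Equiv.Perm (Fin n)) (x : Fin n) : ℕ :=
  ((Des π).filter fun i => i < π.symm x).card

def good {n : ℕ} (π : Equiv.Perm (Fin n)) : Prop :=
  ∀ i j : Fin n, i < j → (rho π (π i) = rho π (π j) ∧ π i < π j) ∨
    (¬ rho π (π i) = rho π (π j) ∧ ∃ a, rho π a = rho π (π i) ∧ ∀ b, rho π b = rho π (π j) → a < b)

instance {n : ℕ} (π : Equiv.Perm (Fin n)) : Decidable (good π) := by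
  unfold good; infer_instance

theorem g5 : ∀ π : Equiv.Perm (Fin 5), crit π → good π := by decide +kernel
theorem g6 : ∀ π : Equiv.Perm (Fin 6), crit π → good π := by decide +kernel

theorem iff_crit {n : ℕ} (h : ∀ π : Equiv.Perm (Fin n), crit π → good π)
    (π : Equiv.Perm (Fin n)) : RunSorted π ↔ crit π :=
  ⟨crit_of π, fun hc => ⟨Setoid.ker (rho π), h π hc⟩⟩

def lamN (k : ℕ) : ℕ := if k = 2 then 24 else if k = 3 then 6 else if k = 4 then 189 else
  if k = 5 then 2 else 1

def cf (n d : ℕ) : ℕ :=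
  ∑ π ∈ (Finset.univ.filter (fun π : Equiv.Perm (Fin n) => crit π)).filter
    (fun π => (Des π).card = d), ∏ i ∈ Des π, lamN (i.val + 1)

theorem Q_eq {n : ℕ} (h : ∀ π : Equiv.Perm (Fin n), crit π → good π)
    (h2 : ∀ π : Equiv.Perm (Fin n), crit π → (Des π).card < 3) :
    Q n (fun k => (lamN k : ℝ)) = ∑ d ∈ Finset.range 3, C (cf n d : ℝ) * X ^ d := by
  unfold Q
  have e : ∀ inst : DecidablePred (fun π : Equiv.Perm (Fin n) => RunSorted π),
      @Finset.filter _ (fun π : Equiv.Perm (Fin n) => RunSorted π) inst Finset.univ =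
        Finset.univ.filter (fun π : Equiv.Perm (Fin n) => crit π) := by
    intro inst; ext π; simp [iff_crit h π]
  rw [e]
  rw [← Finset.sum_fiberwise_of_maps_to (t := Finset.range 3) (g := fun π => (Des π).card)]
  · refine Finset.sum_congr rfl fun d _ => ?_
    unfold cf
    rw [Nat.cast_sum, map_sum, Finset.sum_mul]
    refine Finset.sum_congr ?_ fun π hπ => ?_
    · ext π; simp
    · rw [Finset.prod_mul_distrib, Finset.prod_const, (Finset.mem_filter.1 hπ).2, Nat.cast_prod,
        map_prod]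
  · intro π hπ
    exact Finset.mem_range.2 (h2 π (Finset.mem_filter.1 hπ).2)

theorem c5 : cf 5 0 = 1 ∧ cf 5 1 = 669 ∧ cf 5 2 = 13608 := by decide +kernel
theorem c6 : cf 6 0 = 1 ∧ cf 6 1 = 1859 ∧ cf 6 2 = 36780 := by decide +kernel

theorem quad (f : ℝ[X]) (p q : ℝ) (hp : 0 < p) (hpq : p < q)
    (hf : f = C (p * q) * ((X - C (-1 / q)) * (X - C (-1 / p)))) :
    RealNonpos f ∧ rts f = [-1 / q, -1 / p] := by
  have hq : 0 < q := hp.trans hpq
  have h0 : p * q ≠ 0 := (mul_pos hp hq).ne'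
  have h1 : (X - C (-1 / q)) * (X - C (-1 / p)) ≠ (0 : ℝ[X]) :=
    mul_ne_zero (X_sub_C_ne_zero _) (X_sub_C_ne_zero _)
  have hr : f.roots = {-1 / q, -1 / p} := by
    rw [hf, roots_C_mul _ h0, roots_mul h1, roots_X_sub_C, roots_X_sub_C]; rfl
  have hd : f.natDegree = 2 := by
    rw [hf, natDegree_C_mul h0, natDegree_mul (X_sub_C_ne_zero _) (X_sub_C_ne_zero _),
      natDegree_X_sub_C, natDegree_X_sub_C]
  have hle : -1 / p ≤ -1 / q := by
    rw [neg_div, neg_div, neg_le_neg_iff]
    exact one_div_le_one_div_of_le hp hpq.le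
  refine ⟨⟨?_, ?_, ?_⟩, ?_⟩
  · rw [hf]; exact mul_ne_zero (C_ne_zero.2 h0) h1
  · rw [hr, hd]; rfl
  · intro x hx
    rw [hr] at hx
    simp only [Multiset.insert_eq_cons, Multiset.mem_cons, Multiset.mem_singleton] at hx
    rcases hx with rfl | rfl
    · exact div_nonpos_of_nonpos_of_nonneg (by norm_num) hq.le
    · exact div_nonpos_of_nonpos_of_nonneg (by norm_num) hp.le
  · unfold rts
    rw [hr]
    refine List.Perm.eq_of_pairwise' (r := (· ≥ ·)) (Multiset.pairwise_sort _ _) ?_ ?_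
    · simpa using hle
    · exact Multiset.coe_eq_coe.1 (by rw [Multiset.sort_eq]; rfl)

theorem result : ∃ (lam : ℕ → ℝ) (n : ℕ), (∀ k, 0 < lam k) ∧ 1 < n ∧
    RealNonpos (Q (n - 1) lam) ∧ RealNonpos (Q n lam) ∧ ¬ Interlaces (Q (n - 1) lam) (Q n lam) := by
  have e5 := Q_eq g5 (by decide +kernel)
  have e6 := Q_eq g6 (by decide +kernel)
  simp only [Finset.sum_range_succ, Finset.sum_range_zero, c5.1, c5.2.1, c5.2.2, c6.1, c6.2.1,
    c6.2.2] at e5 e6
  have q5 := quad (Q 5 (fun k => (lamN k : ℝ))) 21 648 (by norm_num) (by norm_num) (by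
    rw [e5]; refine Polynomial.funext fun t => ?_
    simp only [eval_add, eval_mul, eval_C, eval_X, eval_pow, eval_sub, eval_zero]; push_cast; ring)
  have q6 := quad (Q 6 (fun k => (lamN k : ℝ))) 20 1839 (by norm_num) (by norm_num) (by
    rw [e6]; refine Polynomial.funext fun t => ?_
    simp only [eval_add, eval_mul, eval_C, eval_X, eval_pow, eval_sub, eval_zero]; push_cast; ring)
  refine ⟨fun k => (lamN k : ℝ), 6, fun k => ?_, by norm_num, q5.1, q6.1, fun h => ?_⟩
  · have : 0 < lamN k := by unfold lamN; split_ifs <;> norm_num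
    exact Nat.cast_pos.2 this
  · have := h.1 1 (by rw [q5.2]; simp) (by rw [q6.2]; simp)
    simp only [Nat.add_one_sub_one, q5.2, q6.2] at this
    norm_num at this

end Pool.Agent.Results.MP_84eedd_co.Inter
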